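import Pool.Agent.Helper61.TQ.Core

set_option autoImplicit false

namespace Pool.Agent.Helper61.TQ

/-- the two cases of a comparison of ranks give a proof -/
theorem DICH_main (hLEW : ST_LEW) (hBS : ST_BS) (S : Sys) (ρ ψ ψ' : W) (hρ : ρ ∉ S.K)
    (hψ : ψ ∈ S.K) (hψ' : ψ' ∉ S.K) (hle : val (S.rk ρ ψ') ≤ val (S.rk ρ ψ)) :
    S.CA ρ ψ ∨ S.CB ρ ψ' ∨ S.CC ρ ψ ψ' := by
  obtain ⟨hL1, hL2, hL3, hL4, hL5, hL6, hL7, hL8⟩ := hLEW
  have hVf : ∀ z : W, S.V ρ z = false := by
    intro z
    cases h : S.V ρ z with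
    | false => rfl
    | true => exact absurd (S.hV ρ z h).2 hρ
  have hcut : ∀ c : W, c.length = S.m ρ → S.cut ρ c ∉ S.K := by
    intro c hc h
    obtain ⟨z, _, hz⟩ := (S.hcut ρ c hc).1 h
    rw [hVf z] at hz
    exact absurd hz (by decide)
  have hzl : (zer (S.m ρ)).length = S.m ρ := by simp [zer]
  have hol : (one (S.m ρ)).length = S.m ρ := by simp [one]
  have hA : ∀ c : W, c.length = S.m ρ → S.g ρ ψ c = false → S.χ (S.cut ρ c) ψ ∈ S.K := by
    intro c hc hg
    by_contra hn
    have h := S.hχ (S.cut ρ c) ψ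
    have h2 : S.b (S.cut ρ c) ψ = true ↔ S.χ (S.cut ρ c) ψ ∈ S.K := by
      have : S.b (S.cut ρ c) ψ = false := hg
      rw [this]
      simp [hn]
    exact hcut c hc ((h.2 h2).2 hψ)
  have hB : ∀ c : W, c.length = S.m ρ → S.g ρ ψ' c = true → S.χ (S.cut ρ c) ψ' ∈ S.K := by
    intro c hc hg
    have h := S.hχ (S.cut ρ c) ψ'
    have h2 : S.cut ρ c ∈ S.K ↔ ψ' ∈ S.K :=
      ⟨fun h => absurd h (hcut c hc), fun h => absurd h hψ'⟩
    exact (h.1 h2).1 hg
  cases hg1 : S.g ρ ψ (one (S.m ρ)) with
  | false => exact Or.inl ⟨hψ, hg1, hA _ hol hg1⟩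
  | true =>
    right
    obtain ⟨hb1, hb2, hb3⟩ := hBS (S.g ρ ψ) (S.m ρ)
    obtain ⟨hb1', hb2', _⟩ := hBS (S.g ρ ψ') (S.m ρ)
    have hrk : S.rk ρ ψ = false :: bs (S.g ρ ψ) (S.m ρ) := by
      unfold Sys.rk; rw [hg1]; rfl
    have hlt : val (S.rk ρ ψ) < 2 ^ S.m ρ := by
      rw [hrk, hL7]
      have := hL3 (bs (S.g ρ ψ) (S.m ρ))
      rw [hb1] at this
      simpa using this
    cases hg2 : S.g ρ ψ' (one (S.m ρ)) with
    | false =>
      exfalso
      have hrk' : S.rk ρ ψ' = true :: one (S.m ρ) := by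
        unfold Sys.rk; rw [hg2]; rfl
      rw [hrk', hL7, hol] at hle
      simp only [Bool.toNat_true, one_mul] at hle
      omega
    | true =>
      have hrk' : S.rk ρ ψ' = false :: bs (S.g ρ ψ') (S.m ρ) := by
        unfold Sys.rk; rw [hg2]; rfl
      rw [hrk, hrk', hL7, hL7] at hle
      simp only [Bool.toNat_false, zero_mul, zero_add] at hle
      by_cases h0 : val (bs (S.g ρ ψ) (S.m ρ)) = 0
      · left
        have h0' : val (bs (S.g ρ ψ') (S.m ρ)) = val (zer (S.m ρ)) := by
          rw [hL4]; omega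
        have he := hL2 _ _ (by rw [hb1', hzl]) h0'
        have hg3 : S.g ρ ψ' (zer (S.m ρ)) = true := by
          have := hb2' hg2
          rwa [he] at this
        exact ⟨hVf _, hg3, hB _ hzl hg3, hg2, hB _ hol hg2⟩
      · right
        obtain ⟨v, k, hv⟩ := hL8 _ h0
        have hlen : v.length + (k + 1) = S.m ρ := by
          have := congrArg List.length hv
          rw [hb1] at this
          simp only [List.length_append, List.length_cons, zer, List.length_replicate] at this
          omega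
        have hk : S.m ρ - v.length - 1 = k := by omega
        have hg3 := hb3 v k hv
        have hol3 : (v ++ false :: one k).length = S.m ρ := by
          simp only [List.length_append, List.length_cons, one, List.length_replicate]
          omega
        refine ⟨v, bs (S.g ρ ψ') (S.m ρ), by omega, hb1', ?_, hψ, ?_, ?_, hVf _, hb2' hg2,
          hB _ hb1' (hb2' hg2), hg2, hB _ hol hg2⟩
        · rw [hk, ← hv]
          exact (hL1 _ _ (by rw [hb1, hb1'])).2 hle
        · rw [hk]; exact hg3
        · rw [hk]; exact hA _ hol3 hg3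

theorem DICH_rk_length (hBS : ST_BS) (S : Sys) (ρ ψ : W) : (S.rk ρ ψ).length = S.m ρ + 1 := by
  unfold Sys.rk
  cases S.g ρ ψ (one (S.m ρ)) with
  | false => simp [one]
  | true => simp [(hBS (S.g ρ ψ) (S.m ρ)).1]

/-- a proper prefix of a word extends by one letter -/
theorem DICH_ext (u z : W) (h : u <+: z) (hl : u.length < z.length) :
    ∃ s : Bool, u ++ [s] <+: z := by
  obtain ⟨t, ht⟩ := h
  cases t with
  | nil => subst ht; simp at hl
  | cons s t => exact ⟨s, t, by rw [← ht]; simp⟩

theorem st_DICH (hLEW : ST_LEW) (hBS : ST_BS) : ST_DICH := by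
  intro S n ρ hρ hP X hX hXK
  have key : ∀ i : ℕ, i ≤ S.m X →
      ((List.range i).foldl
        (fun u _ => bif leW (S.rk ρ (S.node X (u ++ [false]))) (S.rk ρ (S.node X (u ++ [true])))
          then u ++ [false] else u ++ [true]) ([] : W)).length = i ∧
      S.node X ((List.range i).foldl
        (fun u _ => bif leW (S.rk ρ (S.node X (u ++ [false]))) (S.rk ρ (S.node X (u ++ [true])))
          then u ++ [false] else u ++ [true]) ([] : W)) ∈ S.K := by
    intro i
    induction i with
    | zero =>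
      intro _
      refine ⟨rfl, ?_⟩
      rw [S.hnode]
      obtain ⟨z, hz⟩ := S.hK X hXK
      exact ⟨z, List.nil_prefix, hz⟩
    | succ i ih =>
      intro hi
      obtain ⟨hl, hK⟩ := ih (by omega)
      rw [List.range_succ, List.foldl_append, List.foldl_cons, List.foldl_nil]
      generalize ((List.range i).foldl
        (fun u _ => bif leW (S.rk ρ (S.node X (u ++ [false]))) (S.rk ρ (S.node X (u ++ [true])))
          then u ++ [false] else u ++ [true]) ([] : W)) = u at hl hK
      obtain ⟨z, huz, hz⟩ := (S.hnode X u).1 hK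
      obtain ⟨s, hs⟩ := DICH_ext u z huz (by rw [(S.hV X z hz).1]; omega)
      have hsK : S.node X (u ++ [s]) ∈ S.K := (S.hnode X _).2 ⟨z, hs, hz⟩
      have hno : ∀ s : Bool, ¬ (S.CA ρ (S.node X (u ++ [s])) ∨ S.CB ρ (S.node X (u ++ [!s])) ∨
          S.CC ρ (S.node X (u ++ [s])) (S.node X (u ++ [!s]))) := by
        intro s h
        apply hP
        rcases h with h | h | h
        · exact ⟨X, u, hX, by omega, s, Or.inl h⟩
        · exact ⟨X, u, hX, by omega, !s, Or.inr (Or.inl h)⟩
        · exact ⟨X, u, hX, by omega, s, Or.inr (Or.inr h)⟩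
      have hlenrk := fun ψ => DICH_rk_length hBS S ρ ψ
      have hsib : ∀ s : Bool, S.node X (u ++ [s]) ∈ S.K →
          val (S.rk ρ (S.node X (u ++ [!s]))) ≤ val (S.rk ρ (S.node X (u ++ [s]))) →
          S.node X (u ++ [!s]) ∈ S.K := by
        intro s hs hle
        by_contra hn
        exact hno s (DICH_main hLEW hBS S ρ _ _ hρ hs hn hle)
      cases hc : leW (S.rk ρ (S.node X (u ++ [false]))) (S.rk ρ (S.node X (u ++ [true]))) with
      | true =>
        refine ⟨by simp [hl], ?_⟩
        have hle := (hLEW.1 _ _ (by rw [hlenrk, hlenrk])).1 hc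
        cases s with
        | false => exact hsK
        | true => exact hsib true hsK hle
      | false =>
        refine ⟨by simp [hl], ?_⟩
        have hle : ¬ val (S.rk ρ (S.node X (u ++ [false]))) ≤
            val (S.rk ρ (S.node X (u ++ [true]))) := by
          intro h
          have := (hLEW.1 _ _ (by rw [hlenrk, hlenrk])).2 h
          rw [hc] at this
          exact absurd this (by decide)
        cases s with
        | true => exact hsK
        | false => exact hsib false hsK (by simp only [Bool.not_false]; omega)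
  obtain ⟨hl, hK⟩ := key (S.m X) le_rfl
  obtain ⟨z, huz, hz⟩ := (S.hnode X _).1 hK
  have hzl := (S.hV X z hz).1
  have heq := huz.eq_of_length (by rw [hl, hzl])
  unfold Sys.solves Sys.P
  rw [heq]
  exact hz

end Pool.Agent.Helper61.TQ
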